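import Pool.Agent.Work.MP_cda452_an.OneG
import Pool.Agent.Work.MP_cda452_an.Mdim
import Pool.Agent.Work.MP_cda452_an.Nerve

set_option autoImplicit false

/-!
# A system of mean dimension zero which is not an inverse limit of finite entropy systems

All definitions follow the problem file, for `ℤ^k`-systems with arbitrary `k`; the theorem
`result` gives the counterexample for `k = 1`.
-/

namespace Pool.Agent.Results.MP_cda452_an.ZeroMeanDimension

open Filter Topology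

universe u v

/-- A `ℤ^k`-system: a compact metrizable space with a continuous action of `ℤ^k`. The action is
written additively: `g +ᵥ x` is the point `T^g x`. -/
structure ZkSystem (k : ℕ) : Type (u + 1) where
  /-- the space -/
  Pt : Type u
  [top : TopologicalSpace Pt]
  [compact : CompactSpace Pt]
  [metrizable : TopologicalSpace.MetrizableSpace Pt]
  [action : AddAction (Fin k → ℤ) Pt]
  [continuous_action : ContinuousConstVAdd (Fin k → ℤ) Pt]

attribute [instance] ZkSystem.top ZkSystem.compact ZkSystem.metrizable ZkSystem.action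
  ZkSystem.continuous_action

/-- The box `[0,n)^k` in `ℤ^k`. -/
def box (k n : ℕ) : Set (Fin k → ℤ) := {g | ∀ i, 0 ≤ g i ∧ g i < (n : ℤ)}

/-! ### Mean dimension -/

/-- `d` is the distance of a metric on `Y` which induces the given topology of `Y`. -/
def IsCompatibleMetric (Y : Type u) [t : TopologicalSpace Y] (d : Y → Y → ℝ) : Prop :=
  ∃ m : MetricSpace Y, m.toUniformSpace.toTopologicalSpace = t ∧ ∀ x y, m.dist x y = d x y

/-- `d_Ω(x,y) = max_{g ∈ Ω} d(T^g x, T^g y)`. -/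
noncomputable def orbitDist {k : ℕ} (S : ZkSystem.{u} k) (d : S.Pt → S.Pt → ℝ)
    (Ω : Set (Fin k → ℤ)) (x y : S.Pt) : ℝ :=
  ⨆ g : Ω, d (g.1 +ᵥ x) (g.1 +ᵥ y)

/-- The diameter of `A` for the distance `ρ` is less than `ε`. -/
def DiamLT {Y : Type u} (ρ : Y → Y → ℝ) (A : Set Y) (ε : ℝ) : Prop :=
  ∃ δ < ε, ∀ x ∈ A, ∀ y ∈ A, ρ x y ≤ δ

/-- `Widim_ε(Y,ρ)`: the least dimension of a finite simplicial complex `P` which admits a
continuous map `f : Y → P` all of whose fibres have `ρ`-diameter less than `ε`. -/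
noncomputable def widim (Y : Type u) [TopologicalSpace Y] (ρ : Y → Y → ℝ) (ε : ℝ) : ENNReal :=
  ⨅ (D : ℕ) (_ : ∃ (m : ℕ) (P : Geometry.SimplicialComplex ℝ (Fin m → ℝ)), P.faces.Finite ∧
    (∀ s ∈ P.faces, s.card ≤ D + 1) ∧
    ∃ f : Y → P.space, Continuous f ∧ ∀ p : P.space, DiamLT ρ (f ⁻¹' {p}) ε), (D : ENNReal)

/-- `mdim S = a`: for every compatible metric `d` the limits
`w(ε) = lim_N Widim_ε(S, d_{[0,N)^k}) / N^k` exist and `w(ε)` tends to `a` as `ε → 0`. -/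
def MeanDimEq {k : ℕ} (S : ZkSystem.{u} k) (a : ENNReal) : Prop :=
  ∀ d : S.Pt → S.Pt → ℝ, IsCompatibleMetric S.Pt d → ∃ w : ℝ → ENNReal,
    (∀ ε : ℝ, 0 < ε → Tendsto (fun N : ℕ =>
      widim S.Pt (orbitDist S d (box k N)) ε / (N : ENNReal) ^ k) atTop (𝓝 (w ε))) ∧
    Tendsto w (𝓝[>] 0) (𝓝 a)

/-! ### Topological entropy -/

/-- `α` is an open cover of `Y`. -/
def IsOpenCover {Y : Type u} [TopologicalSpace Y] (α : Set (Set Y)) : Prop :=
  (∀ U ∈ α, IsOpen U) ∧ ∀ x, ∃ U ∈ α, x ∈ U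

/-- The cover `α^Ω`: all sets `⋂_{g ∈ Ω} T^{-g} c(g)` with `c(g) ∈ α` for `g ∈ Ω`. -/
def joinCover {k : ℕ} (S : ZkSystem.{u} k) (α : Set (Set S.Pt)) (Ω : Set (Fin k → ℤ)) :
    Set (Set S.Pt) :=
  {V | ∃ c : (Fin k → ℤ) → Set S.Pt, (∀ g ∈ Ω, c g ∈ α) ∧ V = {x | ∀ g ∈ Ω, g +ᵥ x ∈ c g}}

/-- `N(β)`: the least cardinality of a (finite) subcover of `β`. -/
noncomputable def coverNumber {Y : Type u} (β : Set (Set Y)) : ℕ :=
  sInf {m : ℕ | ∃ s : Finset (Set Y), (s : Set (Set Y)) ⊆ β ∧ (∀ x, ∃ V ∈ s, x ∈ V) ∧ s.card = m}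

/-- The topological entropy `sup_α lim_n (1/n^k) log N(α^{[0,n)^k})` over all open covers `α`
(the limit exists; it is written as an upper limit). -/
noncomputable def entropy {k : ℕ} (S : ZkSystem.{u} k) : EReal :=
  ⨆ (α : Set (Set S.Pt)) (_ : IsOpenCover α), limsup (fun n : ℕ =>
    ((Real.log (coverNumber (joinCover S α (box k n))) / (n : ℝ) ^ k : ℝ) : EReal)) atTop

/-- `S` has finite topological entropy. -/
def FiniteEntropy {k : ℕ} (S : ZkSystem.{u} k) : Prop := entropy S < ⊤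

/-! ### Inverse limits -/

/-- `φ : S → R` is continuous and commutes with the actions. -/
def IsMorphism {k : ℕ} (S : ZkSystem.{u} k) (R : ZkSystem.{v} k) (φ : S.Pt → R.Pt) : Prop :=
  Continuous φ ∧ ∀ (g : Fin k → ℤ) (x : S.Pt), φ (g +ᵥ x) = g +ᵥ φ x

/-- `S` is an inverse limit of finite entropy systems: it is isomorphic to
`{(y_m) ∈ ∏ Y_m : π_m(y_{m+1}) = y_m ∀ m}` with the coordinatewise action, for a sequence of
finite entropy systems `Y_m` and equivariant continuous surjections `π_m : Y_{m+1} → Y_m`. -/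
def IsInverseLimitOfFiniteEntropy {k : ℕ} (S : ZkSystem.{u} k) : Prop :=
  ∃ (Y : ℕ → ZkSystem.{v} k) (π : ∀ m, (Y (m + 1)).Pt → (Y m).Pt),
    (∀ m, FiniteEntropy (Y m)) ∧
    (∀ m, IsMorphism (Y (m + 1)) (Y m) (π m) ∧ Function.Surjective (π m)) ∧
    ∃ e : S.Pt ≃ₜ {y : ∀ m, (Y m).Pt // ∀ m, π m (y (m + 1)) = y m},
      ∀ (g : Fin k → ℤ) (x : S.Pt) (m : ℕ), (e (g +ᵥ x)).1 m = g +ᵥ (e x).1 m

/-! ### Auxiliary facts -/

theorem box_finite (k n : ℕ) : (box k n).Finite := by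
  refine (Set.Finite.pi' (fun _ : Fin k => Set.finite_Ico (0 : ℤ) n)).subset ?_
  intro g hg i
  exact ⟨(hg i).1, (hg i).2⟩

theorem joinCover_isOpenCover {k : ℕ} (S : ZkSystem.{u} k) {α : Set (Set S.Pt)}
    (hα : IsOpenCover α) {Ω : Set (Fin k → ℤ)} (hΩ : Ω.Finite) :
    IsOpenCover (joinCover S α Ω) := by
  constructor
  · rintro V ⟨c, hc, rfl⟩
    have h1 : {x : S.Pt | ∀ g ∈ Ω, g +ᵥ x ∈ c g} = ⋂ g ∈ Ω, (fun x : S.Pt => g +ᵥ x) ⁻¹' c g := by
      ext x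
      simp
    rw [h1]
    exact hΩ.isOpen_biInter (fun g hg => (hα.1 _ (hc g hg)).preimage (continuous_const_vadd g))
  · intro x
    choose c hc hx using fun g : Fin k → ℤ => hα.2 (g +ᵥ x)
    exact ⟨_, ⟨c, fun g _ => hc g, rfl⟩, fun g _ => hx g⟩

theorem coverNumber_spec {Y : Type u} [TopologicalSpace Y] [CompactSpace Y] {β : Set (Set Y)}
    (hβ : IsOpenCover β) : ∃ s : Finset (Set Y), (s : Set (Set Y)) ⊆ β ∧
      (∀ x, ∃ V ∈ s, x ∈ V) ∧ s.card = coverNumber β := by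
  classical
  have hne : {m : ℕ | ∃ s : Finset (Set Y), (s : Set (Set Y)) ⊆ β ∧ (∀ x, ∃ V ∈ s, x ∈ V) ∧
      s.card = m}.Nonempty := by
    obtain ⟨t, ht⟩ := isCompact_univ.elim_finite_subcover (fun V : β => V.1)
      (fun V => hβ.1 _ V.2) (by
        intro x _
        obtain ⟨V, hV, hx⟩ := hβ.2 x
        exact Set.mem_iUnion.2 ⟨⟨V, hV⟩, hx⟩)
    refine ⟨_, t.image Subtype.val, ?_, ?_, rfl⟩
    · intro V hV
      rw [Finset.mem_coe, Finset.mem_image] at hV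
      obtain ⟨W, -, rfl⟩ := hV
      exact W.2
    · intro x
      have h1 := ht (Set.mem_univ x)
      simp only [Set.mem_iUnion] at h1
      obtain ⟨V, hV, hx⟩ := h1
      exact ⟨V.1, Finset.mem_image_of_mem _ hV, hx⟩
  exact Nat.sInf_mem hne

/-- A morphism to a finite entropy system, followed by a map to `ℕ → ℝ`, has few names. -/
theorem names_of_finiteEntropy {k : ℕ} (S : ZkSystem.{u} k) (R : ZkSystem.{v} k)
    (hR : FiniteEntropy R) (φ : S.Pt → R.Pt) (hφ : IsMorphism S R φ) (ι : R.Pt → (ℕ → ℝ))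
    (hι : Continuous ι) :
    ∃ C : ℝ, ∀ α : Finset (Set (ℕ → ℝ)), (∀ W ∈ α, IsOpen W) →
      (∀ x : S.Pt, ∃ W ∈ α, ι (φ x) ∈ W) →
      ∀ᶠ n : ℕ in atTop, ∃ s : Finset ((Fin k → ℤ) → Set (ℕ → ℝ)),
        (∀ c ∈ s, ∀ g : Fin k → ℤ, (∀ i, 0 ≤ g i ∧ g i < (n : ℤ)) → c g ∈ α) ∧
        (∀ x : S.Pt, ∃ c ∈ s, ∀ g : Fin k → ℤ, (∀ i, 0 ≤ g i ∧ g i < (n : ℤ)) →
          ι (φ (g +ᵥ x)) ∈ c g) ∧
        Real.log (s.card : ℝ) ≤ C * (n : ℝ) ^ k := by
  classical
  obtain ⟨C, hC, -⟩ := EReal.lt_iff_exists_real_btwn.1 hR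
  refine ⟨max C 0, fun α ho hc => ?_⟩
  set β : Set (Set R.Pt) := {U | (∃ W ∈ α, U = ι ⁻¹' W) ∨ U = (Set.range φ)ᶜ} with hβdef
  have hβ : IsOpenCover β := by
    constructor
    · rintro U (⟨W, hW, rfl⟩ | rfl)
      · exact (ho W hW).preimage hι
      · exact (isCompact_range hφ.1).isClosed.isOpen_compl
    · intro y
      by_cases hy : y ∈ Set.range φ
      · obtain ⟨x, rfl⟩ := hy
        obtain ⟨W, hW, hx⟩ := hc x
        exact ⟨_, Or.inl ⟨W, hW, rfl⟩, hx⟩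
      · exact ⟨_, Or.inr rfl, hy⟩
  have hlim : limsup (fun n : ℕ => ((Real.log (coverNumber (joinCover R β (box k n))) /
      (n : ℝ) ^ k : ℝ) : EReal)) atTop < (C : EReal) :=
    lt_of_le_of_lt (le_iSup₂_of_le β hβ le_rfl) hC
  filter_upwards [eventually_lt_of_limsup_lt hlim, eventually_gt_atTop 0] with n hn hn0
  have hn1 : Real.log (coverNumber (joinCover R β (box k n))) / (n : ℝ) ^ k < C :=
    EReal.coe_lt_coe_iff.1 hn
  have hnpos : (0 : ℝ) < (n : ℝ) ^ k := by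
    have : (0 : ℝ) < n := by exact_mod_cast hn0
    positivity
  rw [div_lt_iff₀ hnpos] at hn1
  obtain ⟨s, hs1, hs2, hs3⟩ := coverNumber_spec (joinCover_isOpenCover R hβ (box_finite k n))
  have hname : ∀ V ∈ s, (∃ x, φ x ∈ V) → ∃ c : (Fin k → ℤ) → Set (ℕ → ℝ),
      (∀ g ∈ box k n, c g ∈ α) ∧ ∀ x, φ x ∈ V → ∀ g ∈ box k n, ι (φ (g +ᵥ x)) ∈ c g := by
    rintro V hV ⟨x, hx⟩
    obtain ⟨c, hc1, rfl⟩ := hs1 hV
    have h1 : ∀ g : Fin k → ℤ, ∃ W : Set (ℕ → ℝ), g ∈ box k n → W ∈ α ∧ c g = ι ⁻¹' W := by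
      intro g
      by_cases hg : g ∈ box k n
      · rcases hc1 g hg with ⟨W, hW, hW2⟩ | h2
        · exact ⟨W, fun _ => ⟨hW, hW2⟩⟩
        · exfalso
          have h3 := hx g hg
          rw [h2, ← hφ.2] at h3
          exact h3 ⟨_, rfl⟩
      · exact ⟨∅, fun h => absurd h hg⟩
    choose W hW using h1
    refine ⟨W, fun g hg => (hW g hg).1, fun z hz g hg => ?_⟩
    have h4 := hz g hg
    rw [(hW g hg).2, ← hφ.2] at h4
    exact h4
  choose! nm hnm1 hnm2 using hname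
  refine ⟨(s.filter (fun V => ∃ x, φ x ∈ V)).image nm, ?_, ?_, ?_⟩
  · intro c hc g hg
    rw [Finset.mem_image] at hc
    obtain ⟨V, hV, rfl⟩ := hc
    rw [Finset.mem_filter] at hV
    exact hnm1 V hV.1 hV.2 g hg
  · intro x
    obtain ⟨V, hV, hx⟩ := hs2 (φ x)
    exact ⟨nm V, Finset.mem_image_of_mem _ (Finset.mem_filter.2 ⟨hV, x, hx⟩),
      fun g hg => hnm2 V hV ⟨x, hx⟩ x hx g hg⟩
  · have hle : ((s.filter (fun V => ∃ x, φ x ∈ V)).image nm).card ≤
        coverNumber (joinCover R β (box k n)) := by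
      rw [← hs3]
      exact Finset.card_image_le.trans (Finset.card_filter_le _ _)
    rcases Nat.eq_zero_or_pos ((s.filter (fun V => ∃ x, φ x ∈ V)).image nm).card with h0 | hpos
    · rw [h0, Nat.cast_zero, Real.log_zero]
      exact mul_nonneg (le_max_right _ _) hnpos.le
    · have h1 : Real.log (((s.filter (fun V => ∃ x, φ x ∈ V)).image nm).card : ℝ) ≤
          Real.log (coverNumber (joinCover R β (box k n)) : ℝ) :=
        Real.log_le_log (by exact_mod_cast hpos) (by exact_mod_cast hle)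
      calc _ ≤ C * (n : ℝ) ^ k := h1.trans hn1.le
        _ ≤ max C 0 * (n : ℝ) ^ k := mul_le_mul_of_nonneg_right (le_max_left _ _) hnpos.le

/-- A compact metrizable space has a continuous injection to `ℕ → ℝ`. -/
theorem exists_injection (Y : Type u) [TopologicalSpace Y] [CompactSpace Y]
    [TopologicalSpace.MetrizableSpace Y] :
    ∃ ι : Y → (ℕ → ℝ), Continuous ι ∧ Function.Injective ι := by
  obtain ⟨f, hf⟩ := TopologicalSpace.exists_embedding_l_infty Y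
  refine ⟨fun y n => f y n, ?_, ?_⟩
  · exact BoundedContinuousFunction.continuous_coe.comp hf.continuous
  · intro x y hxy
    apply hf.injective
    ext n
    exact congrFun hxy n

/-- A finite cover by open sets of small diameter. -/
theorem small_cover {Y : Type u} [t : TopologicalSpace Y] [CompactSpace Y] (d : Y → Y → ℝ)
    (hd : IsCompatibleMetric Y d) (ε : ℝ) (hε : 0 < ε) :
    ∃ α : Finset (Set Y), (∀ U ∈ α, IsOpen U) ∧ (∀ x, ∃ U ∈ α, x ∈ U) ∧
      ∀ U ∈ α, ∀ x ∈ U, ∀ y ∈ U, d x y ≤ ε := by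
  classical
  obtain ⟨m, rfl, hd⟩ := hd
  obtain ⟨T, -, hTf, hcov⟩ := finite_cover_balls_of_compact (isCompact_univ (X := Y))
    (half_pos hε)
  refine ⟨hTf.toFinset.image (fun y => Metric.ball y (ε / 2)), ?_, ?_, ?_⟩
  · intro W hW
    rw [Finset.mem_image] at hW
    obtain ⟨y, -, rfl⟩ := hW
    exact Metric.isOpen_ball
  · intro x
    have := hcov (Set.mem_univ x)
    simp only [Set.mem_iUnion] at this
    obtain ⟨y, hy, hxy⟩ := this
    exact ⟨_, Finset.mem_image_of_mem _ (hTf.mem_toFinset.2 hy), hxy⟩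
  · intro W hW y hy y' hy'
    rw [Finset.mem_image] at hW
    obtain ⟨z, -, rfl⟩ := hW
    rw [Metric.mem_ball] at hy hy'
    rw [← hd]
    calc dist y y' ≤ dist y z + dist y' z := dist_triangle_right _ _ _
      _ ≤ ε := by linarith

/-- The open cover form of `mdim = 0` implies the form with `Widim`. -/
theorem meanDimEq_zero {k : ℕ} (S : ZkSystem.{u} k)
    (h : ∀ α : Finset (Set S.Pt), (∀ U ∈ α, IsOpen U) → (∀ x : S.Pt, ∃ U ∈ α, x ∈ U) →
      ∀ ε : ℝ, 0 < ε → ∀ᶠ n : ℕ in atTop, ∃ γ : Finset (Set S.Pt),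
        (∀ V ∈ γ, IsOpen V) ∧ (∀ x : S.Pt, ∃ V ∈ γ, x ∈ V) ∧
        (∀ V ∈ γ, ∃ c : (Fin k → ℤ) → Set S.Pt,
          (∀ g : Fin k → ℤ, (∀ i, 0 ≤ g i ∧ g i < (n : ℤ)) → c g ∈ α) ∧
          ∀ x ∈ V, ∀ g : Fin k → ℤ, (∀ i, 0 ≤ g i ∧ g i < (n : ℤ)) → g +ᵥ x ∈ c g) ∧
        ∀ x : S.Pt, ∀ t ⊆ γ, (∀ V ∈ t, x ∈ V) → (t.card : ℝ) ≤ 1 + ε * (n : ℝ) ^ k) :
    MeanDimEq S 0 := by
  classical
  intro d hd
  refine ⟨fun _ => 0, fun ε hε => ?_, tendsto_const_nhds⟩
  rw [ENNReal.tendsto_nhds_zero]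
  intro ε' hε'
  obtain ⟨η, hη0, hη⟩ := ENNReal.lt_iff_exists_nnreal_btwn.1 hε'
  have hη0' : 0 < η := by exact_mod_cast hη0
  obtain ⟨α, hα1, hα2, hα3⟩ := small_cover d hd (ε / 2) (half_pos hε)
  filter_upwards [h α hα1 hα2 η (by exact_mod_cast hη0'), eventually_gt_atTop 0] with n hn hn0
  obtain ⟨γ, hγ1, hγ2, hγ3, hγ4⟩ := hn
  have hηn : (0 : ℝ) ≤ (η : ℝ) * (n : ℝ) ^ k := by positivity
  obtain ⟨m, P, hP1, hP2, f, hf, hfib⟩ := Pool.Agent.Work.MP_cda452_an.exists_nerve_map γ hγ1 hγ2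
    ⌊(η : ℝ) * (n : ℝ) ^ k⌋₊ (by
      intro x t ht hxt
      have h1 := hγ4 x t ht hxt
      rw [← Nat.floor_add_one hηn]
      apply Nat.le_floor
      linarith)
  have hle : widim S.Pt (orbitDist S d (box k n)) ε ≤ (⌊(η : ℝ) * (n : ℝ) ^ k⌋₊ : ENNReal) := by
    refine iInf₂_le_of_le _ ⟨m, P, hP1, hP2, f, hf, ?_⟩ le_rfl
    intro p
    refine ⟨ε / 2, half_lt_self hε, ?_⟩
    intro x hx y hy
    obtain ⟨V, hV, hxV, hyV⟩ := hfib x y (by
      rw [Set.mem_preimage, Set.mem_singleton_iff] at hx hy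
      rw [hx, hy])
    obtain ⟨c, hc1, hc2⟩ := hγ3 V hV
    apply Real.iSup_le _ (half_pos hε).le
    rintro ⟨g, hg⟩
    exact hα3 _ (hc1 g hg) _ (hc2 x hxV g hg) _ (hc2 y hyV g hg)
  have hn1 : ((n : ENNReal) ^ k) ≠ 0 := pow_ne_zero _ (by exact_mod_cast hn0.ne')
  have hn2 : ((n : ENNReal) ^ k) ≠ ⊤ := ENNReal.pow_ne_top (ENNReal.natCast_ne_top n)
  refine le_trans ?_ hη.le
  rw [ENNReal.div_le_iff hn1 hn2]
  refine hle.trans ?_
  have h2 : ((⌊(η : ℝ) * (n : ℝ) ^ k⌋₊ : ℕ) : NNReal) ≤ η * (n : NNReal) ^ k := by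
    rw [← NNReal.coe_le_coe]
    push_cast
    exact Nat.floor_le hηn
  exact_mod_cast h2

/-- The counterexample, from `Pool.Agent.Work.MP_cda452_an`. -/
noncomputable def theExample : ZkSystem.{0} 1 where
  Pt := Pool.Agent.Work.MP_cda452_an.X

/-- **Counterexample.** There is a `ℤ`-system of mean dimension zero which is not an inverse limit
of finite entropy systems; it even has two different points which are identified by every
morphism to a finite entropy system. -/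
theorem result : ∃ S : ZkSystem.{0} 1, MeanDimEq S 0 ∧ ¬ IsInverseLimitOfFiniteEntropy.{0, v} S ∧
    ∃ x y : S.Pt, x ≠ y ∧ ∀ R : ZkSystem.{v} 1, FiniteEntropy R →
      ∀ φ : S.Pt → R.Pt, IsMorphism S R φ → φ x = φ y := by
  classical
  have hmain : ∃ x y : theExample.Pt, x ≠ y ∧ ∀ R : ZkSystem.{v} 1, FiniteEntropy R →
      ∀ φ : theExample.Pt → R.Pt, IsMorphism theExample R φ → φ x = φ y := by
    by_contra hcon
    push Not at hcon
    obtain ⟨M, π, hπ, hsep⟩ := Pool.Agent.Work.MP_cda452_an.finite_sep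
      (fun ψ => ∃ (R : ZkSystem.{v} 1) (φ : theExample.Pt → R.Pt) (ι : R.Pt → (ℕ → ℝ)),
        FiniteEntropy R ∧ IsMorphism theExample R φ ∧ Continuous ι ∧ ψ = fun x => ι (φ x)) (by
        rintro ψ ⟨R, φ, ι, -, hφ, hι, rfl⟩
        exact hι.comp hφ.1) (by
        intro x hx y hy
        obtain ⟨R, hR, φ, hφ, hne⟩ := hcon x y (Pool.Agent.Work.MP_cda452_an.lo_ne_hi hx hy)
        obtain ⟨ι, hι1, hι2⟩ := exists_injection R.Pt
        exact ⟨_, ⟨R, φ, ι, hR, hφ, hι1, rfl⟩, fun h => hne (hι2 h)⟩)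
    refine Pool.Agent.Work.MP_cda452_an.not_sep M π ?_ ?_ hsep
    · intro m
      obtain ⟨R, φ, ι, -, hφ, hι, hψ⟩ := hπ m
      rw [hψ]
      exact hι.comp hφ.1
    · intro m
      obtain ⟨R, φ, ι, hR, hφ, hι, hψ⟩ := hπ m
      rw [hψ]
      exact names_of_finiteEntropy theExample R hR φ hφ ι hι
  refine ⟨theExample, ?_, ?_, hmain⟩
  · exact meanDimEq_zero theExample (fun α ho hc ε hε =>
      Pool.Agent.Work.MP_cda452_an.mdim_zero α ho hc ε hε)
  · rintro ⟨Y, π, hY, hπ, e, he⟩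
    obtain ⟨x, y, hxy, hall⟩ := hmain
    apply hxy
    apply e.injective
    apply Subtype.ext
    funext m
    refine hall (Y m) (hY m) (fun x => (e x).1 m) ⟨?_, fun g x => he g x m⟩
    exact (continuous_apply m).comp (continuous_subtype_val.comp e.continuous)

end Pool.Agent.Results.MP_cda452_an.ZeroMeanDimension
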